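import Pool.Agent.H.MP_1b62a1_an.C

set_option autoImplicit false

namespace Pool.Agent.Results.MP_1b62a1_an.Yes

open Topology

variable (𝕜 : Type) [RCLike 𝕜] (X : ℕ → Type) [∀ n, NormedAddCommGroup (X n)]
  [∀ n, NormedSpace 𝕜 (X n)] [∀ n, NormedSpace ℝ (X n)]

/-- the embedding of the `n`-th summand -/
def emb (n : ℕ) (v : X n) : Π₀ n, X n := DFinsupp.single n v

/-- locally convex vector topologies on the algebraic direct sum that restrict to the norm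
topology on each summand -/
def Adm (σ : TopologicalSpace (Π₀ n, X n)) : Prop :=
  IsTopologicalAddGroup (Π₀ n, X n) ∧ ContinuousSMul 𝕜 (Π₀ n, X n) ∧
    LocallyConvexSpace ℝ (Π₀ n, X n) ∧ ∀ n, IsInducing (emb X n)

/-- the finest such topology -/
def Finest (τ : TopologicalSpace (Π₀ n, X n)) : Prop :=
  Adm 𝕜 X τ ∧ ∀ σ, Adm 𝕜 X σ → ∀ U, IsOpen[σ] U → IsOpen[τ] U

/-- continuous maps whose powers form a hereditarily universal sequence -/
def HerHyp {E : Type} (_τ : TopologicalSpace E) (T : E → E) : Prop :=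
  Continuous T ∧ ∀ B : Set ℕ, B.Infinite → ∃ x, Dense ((fun n => T^[n] x) '' B)

theorem result [∀ n, IsScalarTower ℝ 𝕜 (X n)] [∀ n, CompleteSpace (X n)]
    [∀ n, TopologicalSpace.SeparableSpace (X n)] (hX : ∀ n, ¬ FiniteDimensional 𝕜 (X n)) :
    ∃ τ, Finest 𝕜 X τ ∧ ∃ T : (Π₀ n, X n) →ₗ[𝕜] Π₀ n, X n, HerHyp τ T := by
  obtain ⟨τ, h1, h2⟩ := Pool.Agent.H.MP_1b62a1_an.exfin (𝕜 := 𝕜) (X := X)
  exact ⟨τ, ⟨h1, h2⟩, Pool.Agent.H.MP_1b62a1_an.final hX τ h1 h2⟩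

end Pool.Agent.Results.MP_1b62a1_an.Yes
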